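import Pool.Agent.MP_5d9b3c_ag.H61.Forms

/-!
Module B: the consequences of the functional equation along the tree of blow-ups.
-/

namespace Pool.Agent.MP_5d9b3c_ag.H61

open MvPolynomial
open scoped Polynomial
open MP_ee8c61_ag.H4 (R2 comb map_comb loc ord ord_mul loc_ne_zero Sol Inv Lx lc ld chart sel
  kap coeff_kap lx_iff lx_chart tc_ne ld_chart sel_ne sel_none sel_zero opt_cases Coord span_ind
  hc_mul not_dvd_unit shift JF)
open H72 (RK LX Ord DSide HasSol BStmt)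

variable {K : Type} [Field K] [Algebra K ℂ] {r : ℕ}

lemma up_sw (g : RK K) : up (H72.sw g) = MP_ee8c61_ag.H4.sw (up g) := by
  induction g using MvPolynomial.induction_on with
  | C a => simp [up]
  | add p q hp hq => simp only [up, map_add] at *; rw [hp, hq]
  | mul_X p j hp =>
    simp only [up, map_mul, map_X] at *
    rw [hp]
    fin_cases j <;> simp [H72.sw]

lemma up_ch (c : K) (g : RK K) : up (H72.ch c g) = chart (some (algebraMap K ℂ c)) (up g) := by
  induction g using MvPolynomial.induction_on with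
  | C a => simp [up]
  | add p q hp hq => simp only [up, map_add] at *; rw [hp, hq]
  | mul_X p j hp =>
    simp only [up, map_mul, map_X] at *
    rw [hp]
    fin_cases j <;> simp [H72.ch]

lemma up_sh (a c : K) (g : RK K) :
    up (H72.sh a c g) = shift ![algebraMap K ℂ a, algebraMap K ℂ c] (up g) := by
  induction g using MvPolynomial.induction_on with
  | C a => simp [up]
  | add p q hp hq => simp only [up, map_add] at *; rw [hp, hq]
  | mul_X p j hp =>
    simp only [up, map_mul, map_X] at *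
    rw [hp]
    fin_cases j <;> simp [H72.sh, shift]

omit [Algebra K ℂ] in
lemma sh_ne (a c : K) {g : RK K} (h : g ≠ 0) : H72.sh a c g ≠ 0 := fun e => h (by
  have : (H72.sh (-a) (-c)).comp (H72.sh a c) = AlgHom.id K (RK K) :=
    algHom_ext fun i => by fin_cases i <;> simp [H72.sh]
  rw [← AlgHom.id_apply (R := K) g, ← this, AlgHom.comp_apply, e, map_zero])

lemma up_hc (D : ℕ) (g : RK K) : up (homogeneousComponent D g) = homogeneousComponent D (up g) := by
  ext d
  simp only [up, coeff_map, coeff_homogeneousComponent]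
  split_ifs <;> simp

lemma cc_up (g : RK K) : constantCoeff (up g) = algebraMap K ℂ (constantCoeff g) :=
  constantCoeff_map _ _

lemma lc_eq (G : R2) (a b : ℕ) : lc G a b = coeff (Finsupp.single 0 a + Finsupp.single 1 b) G := by
  induction G using MP_ee8c61_ag.H4.R2.ind with
  | hm c i j =>
    have e : (C c * X 0 ^ i * X 1 ^ j : R2) =
        monomial (Finsupp.single 0 i + Finsupp.single 1 j) c := by
      simp [X_pow_eq_monomial, C_mul_monomial]
    rw [lc, MP_ee8c61_ag.H4.ld_mon, e, coeff_monomial]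
    have e2 : (Finsupp.single (0 : Fin 2) i + Finsupp.single 1 j =
        Finsupp.single 0 a + Finsupp.single 1 b) ↔ i = a ∧ j = b := by
      refine ⟨fun h => ⟨?_, ?_⟩, fun h => by rw [h.1, h.2]⟩
      · simpa using DFunLike.congr_fun h 0
      · simpa using DFunLike.congr_fun h 1
    simp only [e2]
    by_cases h1 : a = i
    · by_cases h2 : j = b
      · simp [h1, h2]
      · simp [h1, h2, Polynomial.coeff_X_pow, Ne.symm h2]
    · simp [h1, Ne.symm h1]
  | ha p q hp hq => simp only [lc, map_add, Polynomial.coeff_add, coeff_add] at *; rw [hp, hq]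

lemma lc_up (g : RK K) (a b : ℕ) : lc (up g) a b = algebraMap K ℂ (H72.cf g a b) := by
  rw [lc_eq, up, coeff_map, H72.cf]

/-- the product of three general members of the ideal -/
noncomputable def FF (θ : Fin 3 → ℂ) (f : Fin r → RK K) : R2 :=
  (comb (θ 0) fun i => up (f i)) * (comb (θ 1) fun i => up (f i)) * comb (θ 2) fun i => up (f i)

/-- the ideal over the complex numbers -/
noncomputable def II (f : Fin r → RK K) : Ideal R2 := Ideal.span (Set.range fun i => up (f i))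

lemma FF_map (θ : Fin 3 → ℂ) {f f' : Fin r → RK K} (σ : R2 →ₐ[ℂ] R2)
    (h : ∀ i, up (f' i) = σ (up (f i))) : FF θ f' = σ (FF θ f) := by
  have e : ∀ x, σ (comb x fun i => up (f i)) = comb x fun i => up (f' i) := fun x => by
    simp only [h]; exact map_comb σ.toLinearMap x _
  simp only [FF, map_mul, e]

lemma II_map {f f' : Fin r → RK K} (σ : R2 →ₐ[ℂ] R2)
    (h : ∀ i, up (f' i) = σ (up (f i))) : II f' = (II f).map σ := by
  rw [II, II, Ideal.map_span, ← Set.range_comp]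
  simp only [h]
  rfl

/-- the order, in terms of homogeneous components -/
def Ord' (f : Fin r → RK K) (D : ℕ) : Prop :=
  (∀ i, ∀ j < D, homogeneousComponent j (f i) = 0) ∧ ∃ i, homogeneousComponent D (f i) ≠ 0

omit [Algebra K ℂ] in
lemma ord'_of {f : Fin r → RK K} {D : ℕ} (h : Ord f D) : Ord' f D := by
  refine ⟨fun i j hj => ?_, h.2⟩
  ext d
  rw [coeff_homogeneousComponent, coeff_zero]
  split_ifs with h1
  · have e : d = Finsupp.single 0 (d 0) + Finsupp.single 1 (d 1) := by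
      ext m; fin_cases m <;> simp
    have e2 : d 0 + d 1 = j := by
      rw [← h1, Finsupp.degree_eq_sum, Fin.sum_univ_two]
    rw [e]
    exact h.1 i _ _ (by omega)
  · rfl

omit [Algebra K ℂ] in
lemma exists_ord' {f : Fin r → RK K} (h : ∃ i, f i ≠ 0) : ∃ D, Ord' f D := by
  classical
  have h1 : ∃ D, ∃ i, homogeneousComponent D (f i) ≠ 0 := by
    obtain ⟨i, hi⟩ := h
    by_contra hc
    push Not at hc
    exact hi (by rw [← sum_homogeneousComponent (f i)]; simp [hc])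
  refine ⟨Nat.find h1, fun i j hj => ?_, Nat.find_spec h1⟩
  have := Nat.find_min h1 hj
  push Not at this
  exact this i

lemma Ord'.kap {f : Fin r → RK K} {D : ℕ} (h : Ord' f D) (i : Fin r) :
    PowerSeries.X ^ D ∣ kap (up (f i)) :=
  PowerSeries.X_pow_dvd_iff.2 fun j hj => by rw [coeff_kap, ← up_hc, h.1 i j hj]; exact map_zero _

lemma Ord'.FF {θ : Fin 3 → ℂ} {f : Fin r → RK K} {D : ℕ} (h : Ord' f D) :
    PowerSeries.X ^ (3 * D) ∣ MP_ee8c61_ag.H4.kap (FF θ f) ∧ homogeneousComponent (3 * D) (FF θ f) =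
      H61.FF θ fun i => homogeneousComponent D (f i) := by
  have h3 : ∀ x, PowerSeries.X ^ D ∣ MP_ee8c61_ag.H4.kap (comb x fun i => up (f i)) := fun x => by
    rw [show MP_ee8c61_ag.H4.kap (comb x fun i => up (f i)) = _ from
      map_comb MP_ee8c61_ag.H4.kap.toLinearMap x _]
    exact Finset.dvd_sum fun m _ => dvd_smul_of_dvd _ (h.kap m)
  have h4 : ∀ x, homogeneousComponent D (comb x fun i => up (f i)) =
      comb x fun i => up (homogeneousComponent D (f i)) := fun x => by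
    simp only [up_hc]; exact map_comb (homogeneousComponent D) x _
  obtain ⟨b1, b2⟩ := hc_mul (h3 (θ 0)) (h3 (θ 1))
  obtain ⟨b3, b4⟩ := hc_mul b1 (h3 (θ 2))
  rw [show D + D + D = 3 * D by ring] at b3 b4
  exact ⟨b3, by rw [H61.FF, b4, b2, h4, h4, h4, H61.FF]⟩

lemma FF_ne {θ : Fin 3 → ℂ} (hθ : AlgebraicIndependent K θ) {f : Fin r → RK K}
    (h : ∃ i, f i ≠ 0) : FF θ f ≠ 0 :=
  mul_ne_zero (mul_ne_zero (comb_up_ne hθ 0 h) (comb_up_ne hθ 1 h)) (comb_up_ne hθ 2 h)

lemma sel_le (q : Option ℂ) (k l : ℕ) : sel q k l ≤ k + l := by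
  rcases opt_cases q with rfl | rfl | ⟨c, hc, rfl⟩
  · simp
  · simp
  · simp [sel_ne hc]

lemma strict_bd {F J : R2} {k l M μ M' μ' D : ℕ} (h : Inv F J k l M μ M' μ')
    (hF : PowerSeries.X ^ D ∣ kap F) (hF0 : homogeneousComponent D F ≠ 0) (hD : 0 < D)
    (q : Option ℂ) (h0 : 0 < sel q k l) :
    D * sel q k l < (k + l + 2) * ord q (homogeneousComponent D F) := by
  obtain ⟨⟨u, h1, h2⟩, h3⟩ := h.old q h0
  have h4 := lx_chart q hF
  have h5 := h4.two (tc_ne (homogeneousComponent_isHomogeneous _ _) hF0 q) h2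
  have h6 := h2.two h1 (by simpa using h4)
  have h7 : sel q M M' ≤ sel q (M + μ) (M' + μ') := by
    rcases opt_cases q with rfl | rfl | ⟨c, hc, rfl⟩
    · simp
    · simp
    · simp [sel_ne hc]
  have h8 := sel_le q k l
  generalize sel q k l = s at *
  generalize sel q M M' = m at *
  generalize sel q (M + μ) (M' + μ') = m' at *
  generalize ord q (homogeneousComponent D F) = o at *
  have a1 : D * s ≤ m' * s := Nat.mul_le_mul_right _ h6
  have a2 : (k + l + 2) * m ≤ (k + l + 2) * o := Nat.mul_le_mul_left _ h5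
  rcases h7.eq_or_lt with rfl | h9
  · have : m * s < (k + l + 2) * m := by
      rw [mul_comm m]
      exact Nat.mul_lt_mul_of_pos_right (by omega) (by omega)
    omega
  · nlinarith

/-- the invariant along the tree -/
def DS (θ : Fin 3 → ℂ) (t : ℂ) (b : ℂ[X]) (f : Fin r → RK K) (k l : ℕ) : Prop :=
  ∃ J A B M μ M' μ', Sol t b (FF θ f) (II f) 3 J A B ∧ Inv (FF θ f) J k l M μ M' μ' ∧
    (∃ i, f i ≠ 0) ∧ (0 < k → M * t + k + 1 = 0 → μ * t + l + 1 ≠ 0) ∧
    (0 < l → M' * t + l + 1 = 0 → μ' * t + k + 1 ≠ 0)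

variable {θ : Fin 3 → ℂ} {t : ℂ} {b : ℂ[X]} {f : Fin r → RK K} {k l : ℕ}

lemma DS.sw (h : DS θ t b f k l) : DS θ t b (fun i => H72.sw (f i)) l k := by
  obtain ⟨J, A, B, M, μ, M', μ', hs, hi, ⟨i, h0⟩, z1, z2⟩ := h
  have e := fun i => up_sw (f i)
  refine ⟨_, _, _, M', μ', M, μ, hs.sw.congr (FF_map θ _ e) (II_map _ e) rfl (fun _ => rfl)
    (fun _ => rfl), (FF_map θ _ e).symm ▸ hi.sw, ⟨i, fun h1 => h0 (up_inj ?_)⟩, z2, z1⟩
  simp only at h1
  rw [← MP_ee8c61_ag.H4.sw_sw (up (f i)), ← e, h1]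
  simp [up]

lemma exc (hθ : AlgebraicIndependent K θ) (hb : b.eval ((3 : ℕ) * t) ≠ 0) {J : R2} {A B : ℕ → R2}
    {M μ M' μ' D : ℕ} (hs : Sol t b (FF θ f) (II f) 3 J A B) (hi : Inv (FF θ f) J k l M μ M' μ')
    (hD : Ord' f D) (h0 : 0 < D) (hc : (3 * D : ℕ) * t + (k + l : ℕ) + 2 = 0) :
    (∀ q, ord q (homogeneousComponent (3 * D) (FF θ f)) * t + (sel q k l : ℕ) + 1 ≠ 0) ∧
      ∃ q1 q2, q1 ≠ q2 ∧
      (ord q1 (homogeneousComponent (3 * D) (FF θ f)) * t + (sel q1 k l : ℕ) + 1) +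
        (ord q2 (homogeneousComponent (3 * D) (FF θ f)) * t + (sel q2 k l : ℕ) + 1) = 0 ∧
      ∀ q, q ≠ q1 → q ≠ q2 →
        ord q (homogeneousComponent (3 * D) (FF θ f)) = 0 ∧ sel q k l = 0 := by
  have hF := (hD.FF (θ := θ)).1
  have hF0 : homogeneousComponent (3 * D) (FF θ f) ≠ 0 := by
    rw [hD.FF.2]; exact FF_ne hθ hD.2
  obtain ⟨e, β, ho, -⟩ := hs.exc h0 (span_ind kap.toRingHom hD.kap) hF hF0 hi.jf.kap.1
    hi.jf.kap.2.1 hc (hi.bd hF hF0)
  obtain ⟨a1, q1, q2, a2, a3, a4⟩ := ho.a hb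
  simp only [hi.jf.kap.2.2] at a1 a3 a4
  refine ⟨a1, q1, q2, a2, a3, fun q b1 b2 => ?_⟩
  have a5 := a4 q b1 b2
  have a6 : 3 * D * sel q k l = (k + l + 2) * ord q (homogeneousComponent (3 * D) (FF θ f)) := by
    have : ((3 * D : ℕ) * (sel q k l : ℕ) : ℂ) =
        ((k + l : ℕ) + 2) * ord q (homogeneousComponent (3 * D) (FF θ f)) := by
      linear_combination ((3 * D : ℕ) : ℂ) * a5 -
        (ord q (homogeneousComponent (3 * D) (FF θ f)) : ℂ) * hc
    exact_mod_cast this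
  rcases Nat.eq_zero_or_pos (sel q k l) with a7 | a7
  · rw [a7] at a6
    exact ⟨by simpa using a6.symm, a7⟩
  · exact absurd a6 (strict_bd hi hF hF0 (by omega) q a7).ne

open Classical in
lemma DS.ch (hθ : AlgebraicIndependent K θ) (hb : b.eval ((3 : ℕ) * t) ≠ 0) (h : DS θ t b f k l)
    (h0 : ∀ i, constantCoeff (f i) = 0) (c : K) :
    DS θ t b (fun i => H72.ch c (f i)) (k + l + 1) (if c = 0 then l else 0) := by
  obtain ⟨J, A, B, M, μ, M', μ', hs, hi, hne, z1, z2⟩ := h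
  obtain ⟨D, hD⟩ := exists_ord' hne
  have hD0 : 0 < D := by
    refine Nat.pos_of_ne_zero ?_
    rintro rfl
    obtain ⟨i, h1⟩ := hD.2
    exact h1 (by rw [homogeneousComponent_zero, ← constantCoeff_eq, h0, map_zero])
  have hF := (hD.FF (θ := θ)).1
  have hF0 : homogeneousComponent (3 * D) (FF θ f) ≠ 0 := by
    rw [hD.FF.2]; exact FF_ne hθ hD.2
  have e := fun i => up_ch c (f i)
  have es : sel (some (algebraMap K ℂ c)) k l = if c = 0 then l else 0 := by simp [sel]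
  rw [← es]
  refine ⟨_, _, _, _, _, _, _, (hs.chart (some _)).congr (FF_map θ _ e) (II_map _ e) rfl
    (fun _ => rfl) (fun _ => rfl), (FF_map θ _ e).symm ▸ hi.chart hF hF0 (some _), ?_,
    fun _ hc => (exc hθ hb hs hi hD hD0 (by push_cast at hc ⊢; linear_combination hc)).1 _, ?_⟩
  · obtain ⟨i, h1⟩ := hD.2
    refine ⟨i, fun h2 => loc_ne_zero (homogeneousComponent_isHomogeneous D (up (f i)))
      (fun h3 => h1 (up_inj ?_)) (some (algebraMap K ℂ c)) ?_⟩
    · rw [up_hc, h3]; exact (map_zero _).symm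
    · rw [← ld_chart, ← e]
      simp only at h2
      simp [h2]
  · by_cases hc : algebraMap K ℂ c = 0
    · rw [hc]
      intro a1 a2 a3
      simp only [sel_zero] at a1 a2 a3
      exact z2 a1 a2 (by push_cast at a3; linear_combination a3 - a2)
    · simp [sel_ne hc]

lemma lx_comb (hθ : AlgebraicIndependent K θ) {M μ : ℕ} (h : LX f M μ) (j : Fin 3) :
    ∃ u, u ≠ 0 ∧ Lx (comb (θ j) fun i => up (f i)) M μ u := by
  have e : ∀ a c, lc (comb (θ j) fun i => up (f i)) a c =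
      comb (θ j) fun i => algebraMap K ℂ (H72.cf (f i) a c) := fun a c => by
    simp only [← lc_up]
    exact map_comb (Polynomial.lcoeff ℂ c ∘ₗ ld a) _ _
  refine ⟨_, comb_ne hθ j h.2, lx_iff.2 ⟨fun a ha => ?_, fun c hc => ?_, e _ _⟩⟩
  · ext c
    have := e a c
    rw [lc] at this
    rw [this]
    simp [comb, h.1 _ a c (Or.inl ha)]
  · rw [e]
    simp [comb, h.1 _ M c (Or.inr ⟨rfl, hc⟩)]

lemma DS.z (hθ : AlgebraicIndependent K θ) (h : DS θ t b f k l) {M μ : ℕ} (hx : LX f M μ)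
    (hk : 0 < k) (hc : M * (3 * t) + k + 1 = 0) : μ * (3 * t) + l + 1 ≠ 0 := by
  obtain ⟨J, A, B, M0, μ0, M', μ', hs, hi, hne, z1, z2⟩ := h
  obtain ⟨u0, a0, b0⟩ := lx_comb hθ hx 0
  obtain ⟨u1, a1, b1⟩ := lx_comb hθ hx 1
  obtain ⟨u2, a2, b2⟩ := lx_comb hθ hx 2
  obtain ⟨⟨u, a3, b3⟩, -⟩ := hi.fx hk
  obtain ⟨rfl, rfl, -⟩ := b3.unique ((b0.mul b1).mul b2) a3 (mul_ne_zero (mul_ne_zero a0 a1) a2)
  intro h1
  exact z1 hk (by push_cast; linear_combination hc) (by push_cast; linear_combination h1)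

lemma DS.root (hθ : AlgebraicIndependent K θ) (hb : b.eval ((3 : ℕ) * t) ≠ 0)
    (h : DS θ t b f k 0) {w z : RK K} {a c : ℕ} {g : Fin r → RK K} (hw : constantCoeff w = 0)
    (hz : constantCoeff z = 0)
    (hj : constantCoeff (pderiv 0 w * pderiv 1 z - pderiv 1 w * pderiv 0 z) ≠ 0)
    (hk : 0 < k → w = X 0) (hf : ∀ i, f i = w ^ a * z ^ c * g i)
    (hg : ∃ i, constantCoeff (g i) ≠ 0) : c * (3 * t) + 1 ≠ 0 := by
  obtain ⟨J, A, B, M0, μ0, M', μ', hs, hi, hne, z1, z2⟩ := h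
  have co : Coord (up w) (up z) := ⟨by rw [cc_up, hw, map_zero], by rw [cc_up, hz, map_zero], by
    simp only [up, pderiv_map, ← map_mul, ← map_sub]
    rw [constantCoeff_map]
    exact (_root_.map_ne_zero _).2 hj⟩
  obtain ⟨z1, z2, p1, c1, u2, ez⟩ := co.symm.prime
  have e1 : ∀ x, (comb x fun i => up (f i)) = up w ^ a * up z ^ c * comb x fun i => up (g i) :=
    fun x => by simp [comb, hf, Finset.mul_sum, up]
  have e2 : ∀ j, ¬z1 ∣ comb (θ j) fun i => up (g i) := fun j => not_dvd_unit c1.1 (by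
    have := comb_ne hθ j hg
    simpa [comb, cc_up] using this)
  have e3 : ∀ m, ¬z1 ∣ up w ^ m := fun m hd => c1.not_dvd (p1.dvd_of_dvd_pow hd)
  have e4 : ∀ m, ¬z1 ∣ z2 ^ m := fun m hd => not_dvd_unit c1.1 u2 (p1.dvd_of_dvd_pow hd)
  intro hc
  refine hb (hs.root (h := z1) (a := c) (V := z2 ^ (3 * c) * up w ^ (3 * a) *
    ((comb (θ 0) fun i => up (g i)) * (comb (θ 1) fun i => up (g i)) * comb (θ 2) fun i => up (g i)))
    (span_ind (RingHom.id _) fun m => ⟨z2 ^ c * up w ^ a * up (g m), ?_⟩) ?_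
    (by push_cast; linear_combination hc) p1 ?_ ?_)
  · rw [RingHom.id_apply, hf, up, map_mul, map_mul, map_pow, map_pow]
    change up w ^ a * up z ^ c * up (g m) = _
    rw [ez]; ring
  · rw [FF, e1, e1, e1, ez]; ring
  · exact p1.not_dvd_mul (p1.not_dvd_mul (e4 _) (e3 _))
      (p1.not_dvd_mul (p1.not_dvd_mul (e2 0) (e2 1)) (e2 2))
  · obtain ⟨U, hU, rfl⟩ := hi.jf
    refine p1.not_dvd_mul ?_ (not_dvd_unit c1.1 hU)
    rw [pow_zero, mul_one]
    rcases Nat.eq_zero_or_pos k with rfl | h1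
    · simpa using p1.not_dvd_one
    · have := e3 k
      rwa [hk h1, up, map_X] at this

lemma DS.crit (hθ : AlgebraicIndependent K θ) (hb : b.eval ((3 : ℕ) * t) ≠ 0)
    (h : DS θ t b f k l) {D : ℕ} (hD : Ord f D) (h0 : 0 < D) (hc : D * (3 * t) + k + l + 2 = 0) :
    ∃ (α β : Fin 2 → K) (d κ : Fin 2 → ℕ) (γ : Fin r → K) (u : K),
      α 0 * β 1 ≠ α 1 * β 0 ∧ d 0 + d 1 = D ∧ κ 0 + κ 1 = k + l ∧
      (∀ i, homogeneousComponent D (f i) =
        C (γ i) * ∏ j, (C (α j) * X 0 + C (β j) * X 1) ^ d j) ∧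
      (X 0 ^ k * X 1 ^ l : RK K) = C u * ∏ j, (C (α j) * X 0 + C (β j) * X 1) ^ κ j ∧
      ∀ j, d j * (3 * t) + κ j + 1 ≠ 0 := by
  obtain ⟨J, A, B, M0, μ0, M', μ', hs, hi, hne, z1, z2⟩ := h
  replace hD := ord'_of hD
  obtain ⟨a1, q1, q2, a2, a3, a4⟩ := exc hθ hb hs hi hD h0 (by push_cast; linear_combination hc)
  rw [hD.FF.2] at a1 a3 a4
  obtain ⟨i0, hi0⟩ := hD.2
  set h : Fin r → RK K := fun i => homogeneousComponent D (f i) with hh
  have hom : ∀ i, (h i).IsHomogeneous D := fun i => homogeneousComponent_isHomogeneous _ _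
  have Φh : ∀ j, (comb (θ j) fun i => up (h i)).IsHomogeneous D := fun j =>
    comb_hom (fun i => (hom i).map _) _
  have Φ0 : ∀ j, (comb (θ j) fun i => up (h i)) ≠ 0 := fun j => comb_up_ne hθ j ⟨i0, hi0⟩
  have s1 : ∀ q, ord q (FF θ h) = ∑ j, ord q (comb (θ j) fun i => up (h i)) := fun q => by
    rw [FF, ord_mul ((Φh 0).mul (Φh 1)) (Φh 2) (mul_ne_zero (Φ0 0) (Φ0 1)) (Φ0 2),
      ord_mul (Φh 0) (Φh 1) (Φ0 0) (Φ0 1), Fin.sum_univ_three]
  choose lam hlam using two_pts hθ hom (i0 := i0) hi0 a2 fun j q b1 b2 =>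
    Finset.sum_eq_zero_iff.1 ((s1 q).symm.trans (a4 q b1 b2).1) j (Finset.mem_univ _)
  have hU0 : up (h i0) ≠ 0 := fun e => hi0 (up_inj (e.trans (map_zero _).symm))
  have s2 : ∀ q j, ord q (comb (θ j) fun i => up (h i)) = ord q (up (h i0)) := fun q j => by
    have e : (comb (θ j) fun i => up (h i)) = C (comb (θ j) lam) * up (h i0) := by
      rw [show (fun i => up (h i)) = fun i => C (lam i) * up (h i0) from funext hlam]
      simp only [comb, map_sum, Finset.sum_mul, smul_eq_C_mul, smul_eq_mul, map_mul, mul_assoc]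
    have e0 := Φ0 j
    rw [e] at e0 ⊢
    rw [ord_mul (isHomogeneous_C _ _) ((hom i0).map _) (left_ne_zero_of_mul e0) hU0]
    simp [ord]
  have s3 : ∀ q, ord q (FF θ h) = 3 * ord q (up (h i0)) := fun q => by
    rw [s1]; simp [s2]
  simp only [s3] at a1 a3 a4
  obtain ⟨o1, o2, n12, ho⟩ := ext_two (K := K)
    (fun q => ord q (up (h i0)) ≠ 0 ∨ sel q k l ≠ 0) (q1 := q1) (q2 := q2) fun q hq => by
      have m : ∀ q, ord q (up (h i0)) ≠ 0 ∨ sel q k l ≠ 0 → q = q1 ∨ q = q2 := fun q hq => by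
        by_contra b1
        push Not at b1
        have := a4 q b1.1 b1.2
        omega
      refine ⟨m q hq, ?_⟩
      by_contra hr
      rcases hq with hq | hq
      · obtain ⟨c, c', rfl, b1, b2, b3, b4⟩ := exists_conj (hom i0) hi0 hq hr
        have b5 := a1 (some c)
        have b6 : some c ≠ some c' := fun e => b1 (Option.some_inj.1 e)
        rw [sel_ne b2] at b5
        rcases m _ (Or.inl hq) with e1 | e1 <;> rcases m _ (Or.inl (b4 ▸ hq)) with e2 | e2
        · exact b6 (e1.trans e2.symm)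
        · rw [← e1, ← e2, sel_ne b2, sel_ne b3, ← b4] at a3
          exact b5 (by linear_combination a3 / 2)
        · rw [← e1, ← e2, sel_ne b2, sel_ne b3, ← b4] at a3
          exact b5 (by linear_combination a3 / 2)
        · exact b6 (e1.trans e2.symm)
      · rcases opt_cases q with rfl | rfl | ⟨c, hc, rfl⟩
        · exact hr ⟨none, rfl⟩
        · exact hr ⟨some 0, by simp [pt]⟩
        · exact hq (sel_ne hc _ _)
  have jm : ∀ q, ord q (up (X 0 ^ k * X 1 ^ l : RK K)) = sel q k l := fun q => by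
    have j1 : JF (X 0 ^ k * X 1 ^ l : R2) k l := ⟨1, by simp, by simp⟩
    have j2 : (X 0 ^ k * X 1 ^ l : R2).IsHomogeneous (k + l) := by
      simpa using (isHomogeneous_X_pow (R := ℂ) (0 : Fin 2) k).mul (isHomogeneous_X_pow 1 l)
    rw [← j1.kap.2.2, homogeneousComponent_of_mem j2, if_pos rfl]
    simp [up]
  obtain ⟨c1, γ0, c2⟩ := factor_two (hom i0) hi0 (o := ![o1, o2]) n12 fun q hq => ho q (Or.inl hq)
  obtain ⟨c3, u, c4⟩ := factor_two (g := (X 0 ^ k * X 1 ^ l : RK K)) (D := k + l)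
    (by simpa using (isHomogeneous_X_pow (R := K) (0 : Fin 2) k).mul (isHomogeneous_X_pow 1 l))
    (by simp) (o := ![o1, o2]) n12 fun q hq => ho q (Or.inr (jm q ▸ hq))
  choose γ hγ using fun i => descend hi0 (hlam i)
  refine ⟨fun j => al (![o1, o2] j), fun j => be (![o1, o2] j),
    fun j => ord (pt (![o1, o2] j)) (up (h i0)),
    fun j => ord (pt (![o1, o2] j)) (up (X 0 ^ k * X 1 ^ l : RK K)), fun i => γ i * γ0, u,
    al_be n12, c1, c3, fun i => ?_, c4, fun j e => a1 (pt (![o1, o2] j)) ?_⟩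
  · rw [map_mul, mul_assoc, ← c2]
    exact hγ i
  · simp only [jm] at e
    push_cast
    linear_combination e

theorem dsideB : BStmt := by
  intro K _ _ θ hθ r t b f hb hne hS
  have e3 : (3 : ℂ) * ((t : ℂ) / 3) = t := by ring
  have hb' : b.eval ((3 : ℕ) * ((t : ℂ) / 3)) ≠ 0 := by push_cast; rwa [e3]
  refine ⟨DS θ ((t : ℂ) / 3) b, ⟨fun f k l h => h.sw, fun f k l h h0 c => h.ch hθ hb' h0 c,
    fun f k l M μ h hx hk hc h1 => h.z hθ hx hk (by rw [e3]; exact_mod_cast hc)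
      (by rw [e3]; exact_mod_cast h1),
    fun f k w z a c g h hw hz hj hk hf hg h1 => h.root hθ hb' hw hz hj hk hf hg
      (by rw [e3]; exact_mod_cast h1), fun f k l D h hD h0 hc => ?_⟩, fun a c => ?_⟩
  · obtain ⟨α, β, d, κ, γ, u, h1, h2, h3, h4, h5, h6⟩ :=
      h.crit hθ hb' hD h0 (by rw [e3]; exact_mod_cast hc)
    exact ⟨α, β, d, κ, γ, u, h1, h2, h3, h4, h5, fun j e => h6 j (by rw [e3]; exact_mod_cast e)⟩
  · have e1 : ∀ x, (comb x (X : Fin r → MvPolynomial (Fin r) ℂ)).IsHomogeneous 1 := fun x =>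
      IsHomogeneous.sum _ _ _ fun m _ => by
        rw [smul_eq_C_mul]; exact isHomogeneous_C_mul_X _ _
    have e2 : aeval (fun i => up (f i))
        (comb (θ 0) X * comb (θ 1) X * comb (θ 2) X : MvPolynomial (Fin r) ℂ) = FF θ f := by
      simp [comb, FF]
    obtain ⟨A, B, hs⟩ := hS 3 _ ((t : ℂ) / 3) (((e1 (θ 0)).mul (e1 (θ 1))).mul (e1 (θ 2)))
      (fun h0 => FF_ne hθ hne (by rw [← e2, h0]; simp))
    have e := fun i => up_sh a c (f i)
    obtain ⟨i, hi⟩ := hne
    refine ⟨1, _, _, 0, 0, 0, 0, (hs.shift _).congr ((FF_map θ _ e).trans (by rw [← e2]))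
      (II_map _ e) rfl (fun _ => rfl) (fun _ => rfl),
      ⟨⟨1, by simp, by simp⟩, by simp [MP_ee8c61_ag.H4.Flag],
        by simp [MP_ee8c61_ag.H4.Flag]⟩, ⟨i, sh_ne a c hi⟩, by simp, by simp⟩

end Pool.Agent.MP_5d9b3c_ag.H61
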