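import Pool.Agent.MP_5d9b3c_ag.H72.Iface

/-!
Binary forms over a subfield of the complex numbers and their general combinations.
-/

namespace Pool.Agent.MP_5d9b3c_ag.H61

open MvPolynomial
open scoped Polynomial
open MP_ee8c61_ag.H4 (R2 comb map_comb loc ord ord_sum ord_fin ord_mul loc_ne_zero loc_some
  prop_of_ord lf lf_hom lf_ne ord_lf ord_pow)
open H72 (RK)

variable {K : Type} [Field K] [Algebra K ℂ] {r : ℕ}

/-- extension of scalars -/
noncomputable abbrev up (g : RK K) : R2 := map (algebraMap K ℂ) g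

lemma up_inj : Function.Injective (up : RK K → R2) :=
  map_injective _ (algebraMap K ℂ).injective

lemma alg_of_root (S : Subalgebra K ℂ) {p : ℂ[X]} (hp : p ≠ 0)
    (h : p ∈ Polynomial.lifts (algebraMap S ℂ)) {c : ℂ} (hc : p.eval c = 0) :
    IsAlgebraic S c := by
  obtain ⟨q, rfl⟩ := (Polynomial.mem_lifts _).1 h
  refine ⟨q, fun e => hp (by rw [e, Polynomial.map_zero]), ?_⟩
  rw [Polynomial.aeval_def, ← Polynomial.eval_map, hc]

lemma alg_of_comb (S : Subalgebra K ℂ) {v : Fin r → ℂ} (hv : ∀ i, v i ∈ S) (h : ∃ i, v i ≠ 0)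
    {θ : ℂ} (h0 : comb θ v = 0) : IsAlgebraic S θ := by
  obtain ⟨i, hi⟩ := h
  refine alg_of_root S (p := ∑ m : Fin r, Polynomial.monomial (m : ℕ) (v m)) (fun e => hi ?_)
    (Subsemiring.sum_mem _ fun m _ => Polynomial.monomial_mem_lifts _ ⟨⟨v m, hv m⟩, rfl⟩) ?_
  · have := congrArg (Polynomial.coeff · i) e
    simpa [Polynomial.coeff_monomial, Fin.val_inj] using this
  · simpa [comb, Polynomial.eval_finsetSum, mul_comm] using h0

lemma comb_ne {θ : Fin 3 → ℂ} (hθ : AlgebraicIndependent K θ) (j : Fin 3) {v : Fin r → K}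
    (h : ∃ i, v i ≠ 0) : comb (θ j) (fun i => algebraMap K ℂ (v i)) ≠ 0 := fun h0 => by
  obtain ⟨i, hi⟩ := h
  exact hθ.transcendental_adjoin (s := ∅) (i := j) (by simp)
    (alg_of_comb _ (fun i => Subalgebra.algebraMap_mem _ _) ⟨i, by simpa using hi⟩ h0)

lemma loc_lifts (S : Subalgebra K ℂ) (q : Option ℂ) (hq : ∀ c, q = some c → c ∈ S) (g : RK K) :
    loc q (up g) ∈ Polynomial.lifts (algebraMap S ℂ) := by
  induction g using MvPolynomial.induction_on with
  | C a =>
    rw [up, map_C, algHom_C, Polynomial.algebraMap_eq]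
    exact Polynomial.C'_mem_lifts ⟨⟨_, S.algebraMap_mem a⟩, rfl⟩
  | add p q hp hq => rw [up, map_add, map_add]; exact add_mem hp hq
  | mul_X p j hp =>
    rw [up, map_mul, map_mul, map_X]
    refine mul_mem hp ?_
    cases q with
    | none => fin_cases j <;> simp [Polynomial.X_mem_lifts]
    | some c =>
      fin_cases j
      · simp
      · simp only [Fin.mk_one, MP_ee8c61_ag.H4.loc_some_X1]
        exact add_mem (Polynomial.X_mem_lifts _) (Polynomial.C'_mem_lifts ⟨⟨c, hq c rfl⟩, rfl⟩)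

lemma comb_hom {h : Fin r → R2} {D : ℕ} (hh : ∀ i, (h i).IsHomogeneous D) (θ : ℂ) :
    (comb θ h).IsHomogeneous D :=
  IsHomogeneous.sum _ _ _ fun m _ => by rw [smul_eq_C_mul]; exact (hh m).C_mul _

lemma comb_up_ne {θ : Fin 3 → ℂ} (hθ : AlgebraicIndependent K θ) (j : Fin 3) {h : Fin r → RK K}
    (h0 : ∃ i, h i ≠ 0) : comb (θ j) (fun i => up (h i)) ≠ 0 := fun e => by
  obtain ⟨i, hi⟩ := h0
  obtain ⟨d, hd⟩ := ne_zero_iff.1 hi
  refine comb_ne hθ j (v := fun i => coeff d (h i)) ⟨i, hd⟩ ?_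
  have := map_comb (lcoeff ℂ d) (θ j) fun i => up (h i)
  simp only [e, map_zero, lcoeff_apply, up, coeff_map] at this
  exact this.symm

lemma ord_le {p : R2} {D : ℕ} (hp : p.IsHomogeneous D) (h0 : p ≠ 0) (T : Finset (Option ℂ)) :
    ∑ q ∈ T, ord q p ≤ D := by
  classical
  obtain ⟨Q, hQ⟩ := ord_fin p
  rw [← ord_sum hp h0 (T ∪ Q) fun q h => Finset.mem_union_right _ (hQ q h)]
  exact Finset.sum_le_sum_of_subset Finset.subset_union_left

lemma ord_two {p : R2} {D : ℕ} (hp : p.IsHomogeneous D) (h0 : p ≠ 0) {q1 q2 : Option ℂ}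
    (h12 : q1 ≠ q2) (h : ∀ q, q ≠ q1 → q ≠ q2 → ord q p = 0) : ord q1 p + ord q2 p = D := by
  classical
  rw [← ord_sum hp h0 {q1, q2} fun q hq => by
    by_contra h3
    simp only [Finset.mem_insert, Finset.mem_singleton, not_or] at h3
    exact hq (h q h3.1 h3.2), Finset.sum_pair h12]

lemma root_of_ord {p : R2} {c : ℂ} (h : ord (some c) p ≠ 0) : (loc (some 0) p).eval c = 0 := by
  rw [ord, loc_some, ← Polynomial.rootMultiplicity_eq_natTrailingDegree] at h
  exact (Polynomial.rootMultiplicity_pos'.1 (Nat.pos_of_ne_zero h)).2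

/-- three general combinations with at most two zeros force proportionality -/
theorem two_pts {θ : Fin 3 → ℂ} (hθ : AlgebraicIndependent K θ) {h : Fin r → RK K} {D : ℕ}
    (hh : ∀ i, (h i).IsHomogeneous D) {i0 : Fin r} (h0 : h i0 ≠ 0) {q1 q2 : Option ℂ}
    (h12 : q1 ≠ q2)
    (hz : ∀ j q, q ≠ q1 → q ≠ q2 → ord q (comb (θ j) fun i => up (h i)) = 0) (i : Fin r) :
    ∃ l : ℂ, up (h i) = C l * up (h i0) := by
  classical
  have hU : ∀ i, (up (h i)).IsHomogeneous D := fun i => (hh i).map _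
  have hU0 : ∀ i, h i ≠ 0 → up (h i) ≠ 0 := fun i hi e => hi (up_inj (e.trans (map_zero _).symm))
  have ex : ∀ q, ∃ d, ∃ i, (loc q (up (h i))).coeff d ≠ 0 := fun q =>
    ⟨_, i0, Polynomial.leadingCoeff_ne_zero.2 (loc_ne_zero (hU i0) (hU0 i0 h0) q)⟩
  set d : Option ℂ → ℕ := fun q => Nat.find (ex q) with hd
  have d1 : ∀ q i, h i ≠ 0 → d q ≤ ord q (up (h i)) := fun q i hi =>
    Nat.find_min' (ex q) ⟨i, Polynomial.trailingCoeff_nonzero_iff_nonzero.2
      (loc_ne_zero (hU i) (hU0 i hi) q)⟩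
  set Φ : Fin 3 → R2 := fun j => comb (θ j) fun i => up (h i) with hΦ
  have Φh : ∀ j, (Φ j).IsHomogeneous D := fun j => comb_hom hU _
  have Φ0 : ∀ j, Φ j ≠ 0 := fun j => comb_up_ne hθ j ⟨i0, h0⟩
  have e1 : ∀ q j, loc q (Φ j) = comb (θ j) fun i => loc q (up (h i)) := fun q j =>
    map_comb (loc q).toLinearMap _ _
  have x1 : ∀ q j, d q < ord q (Φ j) →
      IsAlgebraic (Algebra.adjoin K {c | q = some c}) (θ j) := fun q j hq => by
    refine alg_of_comb _ (v := fun i => (loc q (up (h i))).coeff (d q)) (fun i => ?_)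
      (Nat.find_spec (ex q)) ?_
    · obtain ⟨⟨y, hy⟩, e⟩ := (Polynomial.lifts_iff_coeff_lifts _).1
        (loc_lifts (Algebra.adjoin K {c | q = some c}) q
          (fun c hc => Algebra.subset_adjoin hc) (h i)) (d q)
      exact e ▸ hy
    · have := map_comb (Polynomial.lcoeff ℂ (d q)) (θ j) fun i => loc q (up (h i))
      simp only [Polynomial.lcoeff_apply] at this
      rw [← this, ← e1]
      exact Polynomial.coeff_eq_zero_of_lt_natTrailingDegree hq
  have x2 : ∀ c j, ord (some c) (Φ j) ≠ 0 →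
      IsAlgebraic (Algebra.adjoin K (θ '' {j})) c := fun c j hc => by
    refine alg_of_root _ (loc_ne_zero (Φh j) (Φ0 j) (some 0)) ?_ (root_of_ord hc)
    rw [e1, comb]
    refine Subsemiring.sum_mem _ fun m _ => ?_
    rw [Polynomial.smul_eq_C_mul]
    refine mul_mem (Polynomial.C'_mem_lifts ⟨⟨θ j ^ (m : ℕ), pow_mem
      (Algebra.subset_adjoin (Set.mem_image_of_mem θ (Set.mem_singleton j))) _⟩, rfl⟩)
      (loc_lifts _ _ ?_ _)
    intro c hc
    rw [← Option.some_inj.1 hc]
    exact zero_mem _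
  have x3 : ∀ q j j', d q < ord q (Φ j) → d q < ord q (Φ j') → j' = j := fun q j j' a a' => by
    by_contra hne
    refine hθ.transcendental_adjoin (s := {j}) (i := j') hne
      ((x1 q j' a').adjoin_of_forall_isAlgebraic fun c hc => ?_)
    obtain rfl : q = some c := hc.1
    exact x2 c j (by omega)
  obtain ⟨j, j1, j2⟩ : ∃ j, ord q1 (Φ j) ≤ d q1 ∧ ord q2 (Φ j) ≤ d q2 := by
    by_contra hc
    push Not at hc
    have y : ∀ j, d q1 < ord q1 (Φ j) ∨ d q2 < ord q2 (Φ j) := fun j => by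
      by_cases a : ord q1 (Φ j) ≤ d q1
      · exact Or.inr (hc j a)
      · exact Or.inl (not_le.1 a)
    have y01 : ∀ q, d q < ord q (Φ 0) → ¬d q < ord q (Φ 1) := fun q a b =>
      absurd (x3 q 0 1 a b) (by decide)
    have y02 : ∀ q, d q < ord q (Φ 0) → ¬d q < ord q (Φ 2) := fun q a b =>
      absurd (x3 q 0 2 a b) (by decide)
    have y12 : ∀ q, d q < ord q (Φ 1) → ¬d q < ord q (Φ 2) := fun q a b =>
      absurd (x3 q 1 2 a b) (by decide)
    have := y 0
    have := y 1
    have := y 2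
    have := y01 q1
    have := y01 q2
    have := y02 q1
    have := y02 q2
    have := y12 q1
    have := y12 q2
    omega
  have s := ord_two (Φh j) (Φ0 j) h12 (hz j)
  have key : ∀ i, h i ≠ 0 → ∀ q, ord q (up (h i)) =
      if q = q1 then d q1 else if q = q2 then d q2 else 0 := fun i hi q => by
    have a1 := d1 q1 i hi
    have a2 := d1 q2 i hi
    have a3 := ord_le (hU i) (hU0 i hi) {q1, q2}
    rw [Finset.sum_pair h12] at a3
    split_ifs with b1 b2
    · rw [b1]; omega
    · rw [b2]; omega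
    · have a4 := ord_le (hU i) (hU0 i hi) (insert q {q1, q2})
      rw [Finset.sum_insert (by simp [b1, b2]), Finset.sum_pair h12] at a4
      omega
  by_cases hi : h i = 0
  · exact ⟨0, by simp [hi]⟩
  · exact prop_of_ord (hU i) (hU i0) (hU0 i0 h0) fun q => by rw [key i hi, key i0 h0]

/-- conjugate points are zeros of the same order -/
lemma ord_conj {g : RK K} {D : ℕ} (hg : g.IsHomogeneous D) (h0 : g ≠ 0) {c c' : ℂ}
    (h : IsConjRoot K c c') : ord (some c) (up g) = ord (some c') (up g) := by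
  have hU0 : up g ≠ 0 := fun e => h0 (up_inj (e.trans (map_zero _).symm))
  have n0 := loc_ne_zero (hg.map (algebraMap K ℂ)) hU0 (some 0)
  obtain ⟨p, hp⟩ : ∃ p : K[X], p.map (algebraMap K ℂ) = loc (some 0) (up g) := by
    refine ⟨aeval ![1, Polynomial.X] g, ?_⟩
    clear hg h0 hU0 n0
    induction g using MvPolynomial.induction_on with
    | C a => simp
    | add p q hp hq => simp only [up, map_add, Polynomial.map_add] at *; rw [hp, hq]
    | mul_X p j hp =>
      simp only [up, map_mul, Polynomial.map_mul, map_X] at *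
      rw [hp]
      fin_cases j <;> simp
  have key : ∀ {c c' : ℂ}, IsConjRoot K c c' → ∀ n, n < (loc (some 0) (up g)).rootMultiplicity c →
      n < (loc (some 0) (up g)).rootMultiplicity c' := fun {c c'} h n => by
    rw [Polynomial.lt_rootMultiplicity_iff_isRoot_iterate_derivative n0,
      Polynomial.lt_rootMultiplicity_iff_isRoot_iterate_derivative n0, ← hp]
    intro h1 m hm
    have h2 := h1 m hm
    rw [Polynomial.iterate_derivative_map, Polynomial.IsRoot, Polynomial.eval_map,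
      ← Polynomial.aeval_def] at h2 ⊢
    obtain ⟨w, hw⟩ := minpoly.dvd K c h2
    rw [hw, map_mul, h.aeval_eq_zero, zero_mul]
  rw [ord, ord, loc_some, loc_some c', ← Polynomial.rootMultiplicity_eq_natTrailingDegree,
    ← Polynomial.rootMultiplicity_eq_natTrailingDegree]
  exact le_antisymm (le_of_forall_lt (key h)) (le_of_forall_lt (key h.symm))

/-- rational points of the projective line -/
noncomputable def pt (o : Option K) : Option ℂ := o.map (algebraMap K ℂ)

lemma pt_inj : Function.Injective (pt : Option K → Option ℂ) :=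
  Option.map_injective (algebraMap K ℂ).injective

/-- an irrational zero has a different conjugate -/
lemma exists_conj {g : RK K} {D : ℕ} (hg : g.IsHomogeneous D) (h0 : g ≠ 0) {q : Option ℂ}
    (hq : ord q (up g) ≠ 0) (hr : ¬∃ o : Option K, q = pt o) :
    ∃ c c', q = some c ∧ c ≠ c' ∧ c ≠ 0 ∧ c' ≠ 0 ∧ ord (some c) (up g) = ord (some c') (up g) := by
  have : CharZero K := (algebraMap K ℂ).charZero
  cases q with
  | none => exact absurd ⟨none, rfl⟩ hr
  | some c =>
    have hU0 : up g ≠ 0 := fun e => h0 (up_inj (e.trans (map_zero _).symm))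
    have a1 : IsAlgebraic (⊥ : Subalgebra K ℂ) c :=
      alg_of_root _ (loc_ne_zero (hg.map (algebraMap K ℂ)) hU0 (some 0))
        (loc_lifts _ _ (fun c hc => by rw [← Option.some_inj.1 hc]; exact zero_mem _) _)
        (root_of_ord hq)
    have a2 : IsIntegral K c := by
      have : IsAlgebraic K c := by
        refine (a1.restrictScalars K)
      exact this.isIntegral
    have a3 : c ∉ (⊥ : Subalgebra K ℂ) := fun hc => by
      obtain ⟨a, rfl⟩ := Algebra.mem_bot.1 hc
      exact hr ⟨some a, rfl⟩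
    obtain ⟨c', h1, h2⟩ := (notMem_iff_exists_ne_and_isConjRoot
      (minpoly.irreducible a2).separable (IsAlgClosed.splits _)).1 a3
    have a4 : c ≠ 0 := fun e => a3 (e ▸ zero_mem _)
    exact ⟨c, c', rfl, h1, a4, IsConjRoot.ne_zero a4 h2, ord_conj hg h0 h2⟩

lemma ext_two (P : Option ℂ → Prop) {q1 q2 : Option ℂ}
    (hP : ∀ q, P q → (q = q1 ∨ q = q2) ∧ ∃ o : Option K, q = pt o) :
    ∃ o1 o2 : Option K, o1 ≠ o2 ∧ ∀ q, P q → q = pt o1 ∨ q = pt o2 := by
  by_cases h1 : ∃ o1 : Option K, P (pt o1)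
  · obtain ⟨o1, h1⟩ := h1
    by_cases h2 : ∃ o2 : Option K, o1 ≠ o2 ∧ P (pt o2)
    · obtain ⟨o2, h2, h3⟩ := h2
      refine ⟨o1, o2, h2, fun q hq => ?_⟩
      have := pt_inj.ne h2
      rcases (hP q hq).1 with a | a <;> rcases (hP _ h1).1 with b | b <;>
        rcases (hP _ h3).1 with c | c <;> simp_all
    · obtain ⟨o2, h3⟩ := exists_ne o1
      refine ⟨o1, o2, h3.symm, fun q hq => Or.inl ?_⟩
      obtain ⟨o, rfl⟩ := (hP q hq).2
      by_contra h4
      exact h2 ⟨o, fun e => h4 (by rw [e]), hq⟩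
  · refine ⟨none, some 0, by simp, fun q hq => ?_⟩
    obtain ⟨o, rfl⟩ := (hP q hq).2
    exact absurd ⟨o, hq⟩ h1

/-- first coefficient of the linear form of a rational point -/
def al (o : Option K) : K := o.elim 1 fun c => -c

/-- second coefficient of the linear form of a rational point -/
def be (o : Option K) : K := o.elim 0 fun _ => 1

omit [Algebra K ℂ] in
lemma al_be {o1 o2 : Option K} (h : o1 ≠ o2) : al o1 * be o2 ≠ al o2 * be o1 := by
  cases o1 <;> cases o2 <;> simp_all [al, be]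

lemma up_lf (o : Option K) : up (C (al o) * X 0 + C (be o) * X 1) = lf (pt o) := by
  cases o <;> simp [al, be, lf, pt, up]
  ring

lemma descend {g P : RK K} (hP : P ≠ 0) {l : ℂ} (h : up g = C l * up P) : ∃ γ : K, g = C γ * P := by
  obtain ⟨d, hd⟩ := ne_zero_iff.1 hP
  have h1 := congrArg (coeff d) h
  simp only [up, coeff_map, coeff_C_mul] at h1
  refine ⟨coeff d g / coeff d P, up_inj ?_⟩
  have h2 : algebraMap K ℂ (coeff d P) ≠ 0 := by simpa using hd
  rw [h, up, up, map_mul, map_C, map_div₀, h1, mul_div_cancel_right₀ _ h2]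

/-- a form over `K` whose zeros are among two rational points -/
theorem factor_two {g : RK K} {D : ℕ} (hg : g.IsHomogeneous D) (h0 : g ≠ 0) {o : Fin 2 → Option K}
    (h12 : o 0 ≠ o 1) (h : ∀ q, ord q (up g) ≠ 0 → q = pt (o 0) ∨ q = pt (o 1)) :
    ord (pt (o 0)) (up g) + ord (pt (o 1)) (up g) = D ∧
      ∃ γ : K, g = C γ * ∏ j, (C (al (o j)) * X 0 + C (be (o j)) * X 1) ^ ord (pt (o j)) (up g) := by
  classical
  have hU0 : up g ≠ 0 := fun e => h0 (up_inj (e.trans (map_zero _).symm))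
  have hU : (up g).IsHomogeneous D := hg.map _
  have n12 := pt_inj.ne h12
  have s := ord_two hU hU0 n12 fun q a b => by
    by_contra c
    exact (h q c).elim a b
  refine ⟨s, ?_⟩
  generalize ha : ord (pt (o 0)) (up g) = a at s
  generalize hb : ord (pt (o 1)) (up g) = b at s
  have e : up (∏ j, (C (al (o j)) * X 0 + C (be (o j)) * X 1) ^ ord (pt (o j)) (up g)) =
      lf (pt (o 0)) ^ a * lf (pt (o 1)) ^ b := by
    rw [Fin.prod_univ_two, up, map_mul, map_pow, map_pow, ha, hb]
    exact congrArg₂ _ (congrArg (· ^ a) (up_lf _)) (congrArg (· ^ b) (up_lf _))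
  have n1 := pow_ne_zero a (lf_ne (pt (o 0)))
  have n2 := pow_ne_zero b (lf_ne (pt (o 1)))
  have g1 := (lf_hom (pt (o 0))).pow a
  have g2 := (lf_hom (pt (o 1))).pow b
  obtain ⟨l, hl⟩ := prop_of_ord hU (p' := lf (pt (o 0)) ^ a * lf (pt (o 1)) ^ b)
    (by simpa [s] using g1.mul g2) (mul_ne_zero n1 n2) fun q => by
      rw [ord_mul g1 g2 n1 n2, ord_pow (lf_hom _) (lf_ne _), ord_pow (lf_hom _) (lf_ne _), ord_lf,
        ord_lf]
      by_cases a1 : q = pt (o 0)
      · simp [a1, n12, ha]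
      · by_cases a2 : q = pt (o 1)
        · simp [a2, n12.symm, hb]
        · simp only [a1, a2, if_false, zero_mul, add_zero]
          by_contra c
          exact (h q c).elim a1 a2
  refine descend (fun e0 => mul_ne_zero n1 n2 ?_) (l := l) (by rw [e, hl])
  rw [← e, e0]
  exact map_zero _

end Pool.Agent.MP_5d9b3c_ag.H61
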